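import Pool.Agent.H83.AR.Targets3
import Pool.Agent.H93.AR.TargetsE
import Pool.Agent.H79.BR.Targets
import Pool.Agent.H84.BR.SGA

/-!
Local smoothing with one angular derivative, stage 2 (`ℝ^(a+b)`, rotations of both blocks):
targets of parts G and H (pieces without transplantation, sum of the pieces, final theorem).
-/

set_option autoImplicit false

namespace Pool.Agent.H84.B2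

open MeasureTheory Set FourierTransform
open Pool.Agent.H83.LS Pool.Agent.H93.AR Pool.Agent.H54.LS Pool.Agent.H14.LS Pool.Agent.H83.AR
open Pool.Agent.H84.BR
open scoped ENNReal NNReal SchwartzMap

/-- cutoffs at scale `Λ`: `eta0 (s/Λ)` or `chi (s/Λ)` -/
def CT (Lam : ℝ) (c : ℝ → ℝ) : Prop := (∀ s, c s = eta0 (s / Lam)) ∨ (∀ s, c s = chi (s / Lam))

/-- `e(t|ξ|) χ(|ξ|/λ) c₁(|ξ'|) c₂(|ξ''|)` -/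
noncomputable def mc (a b : ℕ) (c₁ c₂ : ℝ → ℝ) (lam t : ℝ) (ξ : EE (a + b)) : ℂ :=
  mT lam t ξ * ((c₁ ‖p1 a b ξ‖ * c₂ ‖p2 a b ξ‖ : ℝ) : ℂ)

/-- the amplitude of the kernel of `mc` -/
noncomputable def gK (a b : ℕ) (c₁ c₂ : ℝ → ℝ) (lam : ℝ) (q : ℝ × EE (a + b)) : ℂ :=
  ((q.1 ^ (a + b - 1) * chi q.1 * c₁ (lam * (q.1 * ‖p1 a b q.2‖)) *
    c₂ (lam * (q.1 * ‖p2 a b q.2‖)) : ℝ) : ℂ)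

/-! ### the kernels -/

/-- SAK: `gK` is an amplitude at scale `2/√λ` -/
def T_SAK : Prop := ∀ a b M : ℕ, 1 ≤ a → 1 ≤ b → ∃ C : ℝ, 0 ≤ C ∧
  ∀ (lam Lam₁ Lam₂ : ℝ) (c₁ c₂ : ℝ → ℝ), 1 ≤ lam → Real.sqrt lam ≤ Lam₁ → Real.sqrt lam ≤ Lam₂ →
  CT Lam₁ c₁ → CT Lam₂ c₂ → SA (a + b) M (2 / Real.sqrt lam) C (gK a b c₁ c₂ lam)

/-- PK: the kernel as an oscillatory integral over the sphere -/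
def T_PK : Prop := ∀ (a b : ℕ) (lam Lam₁ Lam₂ t r : ℝ) (c₁ c₂ : ℝ → ℝ) (u : EE (a + b)), 1 ≤ a →
  1 ≤ b → 0 < lam → CT Lam₁ c₁ → CT Lam₂ c₂ → 0 ≤ r → ‖u‖ = 1 →
  MK (mc a b c₁ c₂ lam t) (-(r • u)) =
    ((lam ^ (a + b) : ℝ) : ℂ) * osc (a + b) (gK a b c₁ c₂ lam) (lam * t) (lam * r) u

/-- KPC: pointwise bound for the kernels -/
def T_KPC : Prop := ∀ a b N : ℕ, 1 ≤ a → 1 ≤ b → ∃ C : ℝ, 0 ≤ C ∧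
  ∀ (lam Lam₁ Lam₂ t : ℝ) (c₁ c₂ : ℝ → ℝ) (x : EE (a + b)), 1 ≤ lam →
  Real.sqrt lam ≤ Lam₁ → Real.sqrt lam ≤ Lam₂ → CT Lam₁ c₁ → CT Lam₂ c₂ → t ∈ Icc (1 : ℝ) 2 →
  ‖MK (mc a b c₁ c₂ lam t) x‖ ≤ C * lam ^ (((a : ℝ) + b + 1) / 2) *
    ((1 + lam * |‖x‖ - t|) ^ N)⁻¹ * ((1 + lam / Lam₁ * ‖p1 a b x‖) ^ N)⁻¹ *
    ((1 + lam / Lam₂ * ‖p2 a b x‖) ^ N)⁻¹

/-- CAP: radial functions integrated over a ball -/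
def T_CAP : Prop := ∀ n : ℕ, 1 ≤ n → ∃ C : ℝ≥0, ∀ (δ : ℝ) (x : EE n) (h : ℝ → ℝ≥0∞), 0 < δ →
  Measurable h → ∫⁻ z in {z : EE n | ‖z - x‖ ≤ δ}, h ‖z‖ ≤
    C * ENNReal.ofReal (δ ^ (n - 1)) * ∫⁻ ρ in {ρ : ℝ | 0 < ρ ∧ |ρ - ‖x‖| ≤ δ}, h ρ

/-- QD: integrals over the quadrant -/
def T_QD : Prop := (∀ a : ℕ, 1 ≤ a → ∃ (N : ℕ) (C : ℝ≥0), ∀ lam Lam t : ℝ, 1 ≤ lam →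
    Real.sqrt lam ≤ Lam → Lam ≤ 4 * lam → t ∈ Icc (1 : ℝ) 2 →
    ∫⁻ ρ in Ioi (0 : ℝ), ∫⁻ r in Ioi (0 : ℝ),
      ENNReal.ofReal (((1 + lam * |Real.sqrt (r ^ 2 + ρ ^ 2) - t|) ^ N)⁻¹ *
        ((1 + lam / Lam * r) ^ N)⁻¹ * r ^ (a - 1)) ≤ C * ENNReal.ofReal (lam⁻¹ * (Lam / lam) ^ a)) ∧
  (∃ C : ℝ≥0, ∀ lam t δ₁ δ₂ r₀ ρ₀ : ℝ, 1 ≤ lam → 0 < δ₁ → 0 < δ₂ →
    ∫⁻ ρ in {ρ : ℝ | 0 < ρ ∧ |ρ - ρ₀| ≤ δ₂}, ∫⁻ r in {r : ℝ | 0 < r ∧ |r - r₀| ≤ δ₁},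
      ENNReal.ofReal (((1 + lam * |Real.sqrt (r ^ 2 + ρ ^ 2) - t|) ^ 2)⁻¹) ≤
      C * ENNReal.ofReal ((δ₁ + δ₂) / lam))

/-- SV2: sup bounds and the tail of the kernels of the pieces -/
def T_SV2 : Prop := ∀ a b : ℕ, 1 ≤ a → 1 ≤ b → ∃ C : ℝ, 0 ≤ C ∧
  ∀ (lam Lam₁ Lam₂ t : ℝ) (c₁ c₂ : ℝ → ℝ), 1 ≤ lam → Real.sqrt lam ≤ Lam₁ → Lam₁ ≤ 4 * lam →
  Real.sqrt lam ≤ Lam₂ → Lam₂ ≤ 4 * lam → CT Lam₁ c₁ → CT Lam₂ c₂ → t ∈ Icc (1 : ℝ) 2 →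
  (∀ (A : ℝ) (f : EE (a + b) → ℂ), BI A f → ∀ x,
    ‖MM (mc a b c₁ c₂ lam t) f x‖ ≤ C * lam ^ (((a : ℝ) + b - 1) / 2) * A) ∧
  (∀ (A δ : ℝ) (f : EE (a + b) → ℂ), BI A f → 0 < δ → (∀ x, f x ≠ 0 → ‖p2 a b x‖ ≤ δ) → ∀ x,
    ‖MM (mc a b c₁ c₂ lam t) f x‖ ≤
      C * (lam ^ (((a : ℝ) + b - 1) / 2) * (Lam₁ / lam) ^ a * δ ^ (b - 1)) * A) ∧
  (∀ (A δ₁ δ₂ : ℝ) (f : EE (a + b) → ℂ), BI A f → 0 < δ₁ → 0 < δ₂ →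
    (∀ x, f x ≠ 0 → ‖p1 a b x‖ ≤ δ₁ ∧ ‖p2 a b x‖ ≤ δ₂) → ∀ x,
    ‖MM (mc a b c₁ c₂ lam t) f x‖ ≤
      C * (lam ^ (((a : ℝ) + b - 1) / 2) * δ₁ ^ (a - 1) * δ₂ ^ (b - 1) * (δ₁ + δ₂)) * A) ∧
  ∫⁻ x in {x : EE (a + b) | 8 ≤ ‖x‖}, ‖MK (mc a b c₁ c₂ lam t) x‖ₑ ≤ ENNReal.ofReal C

/-! ### energy near the subspace `x'' = 0` -/

/-- PL1: Plancherel in the first block -/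
def T_PL1 : Prop := ∀ (a b : ℕ) (A R : ℝ) (G : EE (a + b) → ℂ) (y : EE b), Measurable G →
  (∀ ξ, ‖G ξ‖ ≤ A) → (∀ ξ, R < ‖ξ‖ → G ξ = 0) →
  ∫⁻ z : EE a, ‖∫ ξ : EE (a + b), e (inner ℝ (jm a b z y) ξ) * G ξ‖ₑ ^ 2 =
    ∫⁻ ζ : EE a, ‖∫ η : EE b, e (inner ℝ y η) * G (jm a b ζ η)‖ₑ ^ 2

/-- TE2: energy on `|x''| ≤ δ` -/
def T_TE2 : Prop := ∀ a b : ℕ, 1 ≤ a → 2 ≤ b → ∃ C : ℝ≥0, ∀ (lam Lam δ A : ℝ)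
  (m f : EE (a + b) → ℂ), 1 ≤ lam → 0 < Lam → Lam ≤ 4 * lam → 0 < δ → Measurable m →
  (∀ ξ, ‖m ξ‖ ≤ 1) → (∀ ξ, m ξ ≠ 0 → lam / 2 ≤ ‖ξ‖ ∧ ‖ξ‖ ≤ 2 * lam ∧ Lam / 2 ≤ ‖p2 a b ξ‖ ∧
    ‖p2 a b ξ‖ ≤ 2 * Lam) → BI A f →
  ∫⁻ t in Icc (1 : ℝ) 2, ∫⁻ x in {x : EE (a + b) | ‖p2 a b x‖ ≤ δ},
      ‖MM (fun ξ => e (t * ‖ξ‖) * m ξ) f x‖ₑ ^ 2 ≤
    C * ENNReal.ofReal (δ * lam / Lam) * ∫⁻ x, ‖f x‖ₑ ^ 2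

/-! ### pieces without transplantation -/

/-- status of a block: `0` low frequencies (`Λ = L√λ`), `1` output near the subspace, `2` data near
the subspace; `r` is the norm of the block -/
def Rg (i : ℕ) (L Lam : ℝ) (r : ℝ) : Prop := i = 1 → Lam * r ≤ L ^ 2

/-- TR: neither block transplanted -/
def T_TR : Prop := ∀ (a b : ℕ) (p : ℝ), 2 ≤ a → 2 ≤ b → 2 < p →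
  ((a : ℝ) + b - 1) * (p / 2 - 1) ≤ 1 → ∃ C : ℝ≥0, ∀ (lam L A Lam₁ Lam₂ : ℝ) (c₁ c₂ : ℝ → ℝ)
  (i j : ℕ) (f : EE (a + b) → ℂ), 1 ≤ L → L ^ 2 ≤ lam → L * Real.sqrt lam ≤ Lam₁ →
  Lam₁ ≤ 4 * lam → L * Real.sqrt lam ≤ Lam₂ → Lam₂ ≤ 4 * lam → i ≤ 2 → j ≤ 2 →
  (i = 0 → Lam₁ = L * Real.sqrt lam ∧ ∀ s, c₁ s = eta0 (s / Lam₁)) →
  (i ≠ 0 → ∀ s, c₁ s = chi (s / Lam₁)) →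
  (j = 0 → Lam₂ = L * Real.sqrt lam ∧ ∀ s, c₂ s = eta0 (s / Lam₂)) →
  (j ≠ 0 → ∀ s, c₂ s = chi (s / Lam₂)) → BI A f →
  (i = 2 → ∀ x, f x ≠ 0 → Lam₁ * ‖p1 a b x‖ ≤ L ^ 2) →
  (j = 2 → ∀ x, f x ≠ 0 → Lam₂ * ‖p2 a b x‖ ≤ L ^ 2) →
  ∫⁻ t in Icc (1 : ℝ) 2, ∫⁻ x in {x : EE (a + b) | Rg i L Lam₁ ‖p1 a b x‖ ∧
      Rg j L Lam₂ ‖p2 a b x‖}, ‖MM (mc a b c₁ c₂ lam t) f x‖ₑ ^ p ≤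
    C * ENNReal.ofReal (L ^ 2 * A ^ (p - 2)) * ∫⁻ x, ‖f x‖ₑ ^ 2

/-! ### operators on the two blocks -/

/-- GAQ: the averages commute with countable sums and with cutoffs to balls -/
def T_GAQ : Prop := ∀ (a b : ℕ) (L : ℝ), 1 ≤ a → 1 ≤ b → 1 ≤ L → GoodOp (AQ a b L)

/-- AQS: `AQ` and the exchange of the blocks -/
def T_AQS : Prop := ∀ (a b : ℕ) (L A : ℝ) (f : EE (a + b) → ℂ) (x : EE (a + b)), 1 ≤ a → 1 ≤ b →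
  1 ≤ L → BI A f → AQ a b L f x = AQ b a L (fun y => f (sw b a y)) (sw a b x)

/-- QM: radial cutoffs of the second block of frequencies -/
def T_QM : Prop := ∀ a b : ℕ, 1 ≤ a → 1 ≤ b → ∃ C : ℝ, 1 ≤ C ∧ ∀ (Lam A : ℝ) (c : ℝ → ℝ)
  (f : EE (a + b) → ℂ), 0 < Lam → CT Lam c → BI A f → ∃ g : EE (a + b) → ℂ, BI (C * A) g ∧
  (∀ ξ, 𝓕 g ξ = ((c ‖p2 a b ξ‖ : ℝ) : ℂ) * 𝓕 f ξ) ∧ ∫⁻ x, ‖g x‖ₑ ^ 2 ≤ ∫⁻ x, ‖f x‖ₑ ^ 2 ∧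
  ∀ S : Set ℝ, (∀ x, f x ≠ 0 → ‖p1 a b x‖ ∈ S) → ∀ x, g x ≠ 0 → ‖p1 a b x‖ ∈ S

/-! ### sum of the pieces -/

/-- GGG: good data, good output in the second block, not localized -/
def T_GGG : Prop := ∀ (a b : ℕ) (p η : ℝ), 2 ≤ a → 2 ≤ b → 2 < p →
  ((a : ℝ) + b - 1) * (p / 2 - 1) ≤ 1 → 0 < η → ∃ C : ℝ≥0, ∀ (lam Lam L A : ℝ)
  (f : EE (a + b) → ℂ), 1 ≤ L → 1 ≤ lam → L ^ 2 * lam ≤ Lam ^ 2 → 0 < Lam → Lam ≤ 4 * lam →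
  BI A f → (∀ x, f x ≠ 0 → L ^ 2 ≤ Lam * ‖p2 a b x‖) →
  ∫⁻ t in Icc (1 : ℝ) 2, ∫⁻ x in {x : EE (a + b) | L ^ 2 ≤ Lam * ‖p2 a b x‖},
    ‖MM (m2 a b lam Lam t) (AQ a b L f) x‖ₑ ^ p ≤
    C * ENNReal.ofReal (L ^ 2 * lam ^ η * A ^ (p - 2)) * ∫⁻ x, ‖f x‖ₑ ^ 2

/-- GG1: the mirror image of GGG, with an additional cutoff of the second block of frequencies -/
def T_GG1 : Prop := ∀ (a b : ℕ) (p η : ℝ), 2 ≤ a → 2 ≤ b → 2 < p →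
  ((a : ℝ) + b - 1) * (p / 2 - 1) ≤ 1 → 0 < η → ∃ C : ℝ≥0, ∀ (lam Lam L A Lam₂ : ℝ) (c₂ : ℝ → ℝ)
  (f : EE (a + b) → ℂ), 1 ≤ L → 1 ≤ lam → L ^ 2 * lam ≤ Lam ^ 2 → 0 < Lam → Lam ≤ 4 * lam →
  0 < Lam₂ → CT Lam₂ c₂ → BI A f → (∀ x, f x ≠ 0 → L ^ 2 ≤ Lam * ‖p1 a b x‖) →
  ∫⁻ t in Icc (1 : ℝ) 2, ∫⁻ x in {x : EE (a + b) | L ^ 2 ≤ Lam * ‖p1 a b x‖},
    ‖MM (mc a b (fun s => chi (s / Lam)) c₂ lam t) (AQ a b L f) x‖ₑ ^ p ≤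
    C * ENNReal.ofReal (L ^ 2 * lam ^ η * A ^ (p - 2)) * ∫⁻ x, ‖f x‖ₑ ^ 2

/-- REM: the second block is not transplanted (status `j`) -/
def T_REM : Prop := ∀ (a b : ℕ) (p η : ℝ), 2 ≤ a → 2 ≤ b → 2 < p →
  ((a : ℝ) + b - 1) * (p / 2 - 1) ≤ 1 → 0 < η → ∃ C : ℝ≥0, ∀ (lam L A Lam₂ : ℝ) (c₂ : ℝ → ℝ)
  (j : ℕ) (f : EE (a + b) → ℂ), 1 ≤ L → L ^ 2 ≤ lam → L * Real.sqrt lam ≤ Lam₂ →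
  Lam₂ ≤ 4 * lam → j ≤ 2 →
  (j = 0 → Lam₂ = L * Real.sqrt lam ∧ ∀ s, c₂ s = eta0 (s / Lam₂)) →
  (j ≠ 0 → ∀ s, c₂ s = chi (s / Lam₂)) → BI A f →
  (j = 2 → ∀ x, f x ≠ 0 → Lam₂ * ‖p2 a b x‖ ≤ L ^ 2) →
  ∫⁻ t in Icc (1 : ℝ) 2, ∫⁻ x in {x : EE (a + b) | Rg j L Lam₂ ‖p2 a b x‖},
      ‖MM (mc a b (fun _ => 1) c₂ lam t) (AQ a b L f) x‖ₑ ^ p ≤
    C * ENNReal.ofReal (L ^ 2 * lam ^ η * A ^ (p - 2)) * ∫⁻ x, ‖f x‖ₑ ^ 2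

/-- MA2: restricted type estimate on `ℝ^(a+b)` -/
def T_MA2 : Prop := ∀ a b : ℕ, 2 ≤ a → 2 ≤ b → MALh (a + b) (AQ a b)

/-! ### from the restricted type estimate to the theorem -/

/-- hypothesis on the derivatives along the rotations of the two blocks -/
def RotB (a b : ℕ) (p : ℝ) (f : EE (a + b) → ℂ) (B : ℝ≥0∞) : Prop :=
  ∀ i j : Fin (a + b), (i.val < a ↔ j.val < a) → ∫⁻ x, ‖rotd i j f x‖ₑ ^ p ≤ B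

/-- BL2: one dyadic block -/
def T_BL2 : Prop := ∀ (a b : ℕ) (p η : ℝ), 2 ≤ a → 2 ≤ b → 2 + 2 / ((a : ℝ) + b - 1) ≤ p →
  0 < η → ∃ C : ℝ≥0, ∀ (lam : ℝ) (f : 𝓢(EE (a + b), ℂ)) (B₀ B₁ : ℝ≥0∞), 1 ≤ lam → B₀ ≤ B₁ →
  ∫⁻ x, ‖f x‖ₑ ^ p ≤ B₀ → RotB a b p f B₁ →
  ∫⁻ t in Icc (1 : ℝ) 2, ∫⁻ x, ‖MM (mT lam t) f x‖ₑ ^ p ≤
    C * ENNReal.ofReal (lam ^ (((a : ℝ) + b - 1) * (p / 2 - 1) - 1 + η)) *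
      (B₀ ^ (1 - 2 / p) * B₁ ^ (2 / p))

/-- ROT2: generators of rotations, Fourier transform and radial multipliers -/
def T_ROT2 : Prop := ∀ (d : ℕ) (f : 𝓢(EE d, ℂ)) (i j : Fin d),
  (∃ g : 𝓢(EE d, ℂ), ∀ x, g x = rotd i j f x) ∧
  (∀ ξ, 𝓕 (rotd i j f) ξ = rotd i j (𝓕 (f : EE d → ℂ)) ξ) ∧
  ∀ μ : EE d → ℂ, μ.HasTemperateGrowth → (∀ ξ, rotd i j μ ξ = 0) →
    (∃ g : 𝓢(EE d, ℂ), ∀ x, g x = 𝓕⁻ (fun ξ => μ ξ * 𝓕 (f : EE d → ℂ) ξ) x) ∧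
    ∀ x, rotd i j (fun x => 𝓕⁻ (fun ξ => μ ξ * 𝓕 (f : EE d → ℂ) ξ) x) x =
      𝓕⁻ (fun ξ => μ ξ * 𝓕 (rotd i j f) ξ) x

/-- HG2: one dyadic block with Bessel potentials -/
def T_HG2 : Prop := ∀ (a b : ℕ) (p r η : ℝ), 2 ≤ a → 2 ≤ b → 2 + 2 / ((a : ℝ) + b - 1) ≤ p →
  0 < η → ∃ C : ℝ≥0, ∀ (lam : ℝ) (u : 𝓢(EE (a + b), ℂ)) (B₀ B₁ : ℝ≥0∞), 1 ≤ lam → B₀ ≤ B₁ →
  ∫⁻ x, ‖besS r u x‖ₑ ^ p ≤ B₀ → (∀ i j : Fin (a + b), (i.val < a ↔ j.val < a) →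
    ∫⁻ x, ‖besS r (rotd i j u) x‖ₑ ^ p ≤ B₁) →
  (∫⁻ t in Icc (1 : ℝ) 2, ∫⁻ x, ‖MM (fun ξ => ((Real.cos (2 * Real.pi * t * ‖ξ‖) *
      chi (‖ξ‖ / lam) : ℝ) : ℂ)) u x‖ₑ ^ p ≤
    C * ENNReal.ofReal (lam ^ (((a : ℝ) + b - 1) * (p / 2 - 1) - 1 - p * r + η)) *
      (B₀ ^ (1 - 2 / p) * B₁ ^ (2 / p))) ∧
  (∫⁻ t in Icc (1 : ℝ) 2, ∫⁻ x, ‖MM (fun ξ => ((Real.sin (2 * Real.pi * t * ‖ξ‖) /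
      (2 * Real.pi * ‖ξ‖) * chi (‖ξ‖ / lam) : ℝ) : ℂ)) u x‖ₑ ^ p ≤
    C * ENNReal.ofReal (lam ^ (((a : ℝ) + b - 1) * (p / 2 - 1) - 1 - p * (r + 1) + η)) *
      (B₀ ^ (1 - 2 / p) * B₁ ^ (2 / p)))

/-- FN2: the theorem for `a, b ≥ 2` -/
def T_FN2 : Prop := ∀ (a b : ℕ) (p σ : ℝ), 2 ≤ a → 2 ≤ b →
  2 + 2 / ((a : ℝ) + b - 1) ≤ p → σ < 1 / p →
  ∃ C : ℝ≥0, ∀ (u₀ u₁ : 𝓢(EE (a + b), ℂ)) (N₀ N₁ : ℝ≥0∞), N₀ ≤ N₁ → dat p σ u₀ u₁ ≤ N₀ →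
  (∀ i j : Fin (a + b), (i.val < a ↔ j.val < a) → dat p σ (rotd i j u₀) (rotd i j u₁) ≤ N₁) →
  (∫⁻ t in Icc (1 : ℝ) 2, eLpNorm (fun x => cosS u₀ t x + sinS u₁ t x) (ENNReal.ofReal p)
    volume ^ p) ^ (1 / p) ≤ (C : ℝ≥0∞) * (N₀ ^ (1 - 2 / p) * N₁ ^ (2 / p))

end Pool.Agent.H84.B2
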